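import Pool.Agent.W787.PS.StmA

/-!
# PS-K1: averages of the logarithmic kernel
-/

set_option autoImplicit false

open MeasureTheory Set Metric Filter Topology

noncomputable section

namespace Pool.Agent.W395.PS

open Pool.Agent.W787.PS

lemma int_neg : Integrable (fun x : ℂ => max (-Real.log ‖x‖) 0) := by
  rw [integrable_fun_norm_addHaar volume (f := fun y : ℝ => max (-Real.log y) 0),
    Complex.finrank_real_complex]
  have h : Integrable (indicator (Ioc (0 : ℝ) 1) (fun _ => (1 : ℝ))) (volume.restrict (Ioi 0)) := by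
    refine Integrable.restrict ?_
    rw [integrable_indicator_iff measurableSet_Ioc]
    exact integrableOn_const (by simp)
  refine Integrable.mono' h ?_ ?_
  · refine (Measurable.aestronglyMeasurable ?_)
    exact (measurable_id.pow_const _).smul ((Real.measurable_log.neg).max measurable_const)
  · rw [ae_restrict_iff' measurableSet_Ioi]
    refine Eventually.of_forall fun y hy => ?_
    have hy0 : (0 : ℝ) < y := hy
    have hnn : 0 ≤ y ^ (2 - 1) • max (-Real.log y) 0 :=
      smul_nonneg (by positivity) (le_max_right _ _)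
    rw [Real.norm_of_nonneg hnn]
    by_cases h1 : y ≤ 1
    · rw [indicator_of_mem (show y ∈ Ioc (0 : ℝ) 1 from ⟨hy0, h1⟩)]
      have h2 := Real.one_sub_inv_le_log_of_pos hy0
      have h3 : 0 ≤ -Real.log y := by
        have := Real.log_nonpos hy0.le h1
        linarith
      rw [max_eq_left h3]
      have h4 : y * (-Real.log y) ≤ y * (y⁻¹ - 1) :=
        mul_le_mul_of_nonneg_left (by linarith) hy0.le
      have h5 : y * (y⁻¹ - 1) = 1 - y := by
        field_simp
      simp only [Nat.add_one_sub_one, pow_one, smul_eq_mul]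
      linarith
    · push Not at h1
      have h2 : y ∉ Ioc (0 : ℝ) 1 := fun h => absurd h.2 (not_le.2 h1)
      rw [indicator_of_notMem h2]
      have h3 : -Real.log y ≤ 0 := by
        have := Real.log_nonneg h1.le
        linarith
      rw [max_eq_right h3]
      simp

/-- integral of the negative part of the logarithm -/
def I0 : ℝ := ∫ x : ℂ, max (-Real.log ‖x‖) 0

lemma I0_nonneg : 0 ≤ I0 := integral_nonneg fun _ => le_max_right _ _

lemma int_neg_sub (z : ℂ) : Integrable (fun x : ℂ => max (-Real.log ‖x - z‖) 0) :=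
  int_neg.comp_sub_right z

lemma integral_neg_sub (z : ℂ) : ∫ x : ℂ, max (-Real.log ‖x - z‖) 0 = I0 :=
  integral_sub_right_eq_self (fun x : ℂ => max (-Real.log ‖x‖) 0) z

lemma log_le_up {a z x : ℂ} {r : ℝ} (hx : x ∈ ball a r) :
    Real.log ‖x - z‖ ≤ Real.log (1 + ‖a‖ + r + ‖z‖) := by
  have hxa : ‖x - a‖ < r := by simpa [dist_eq_norm] using hx
  have h1 : ‖x - z‖ ≤ ‖a‖ + r + ‖z‖ := by
    have e : x - z = (x - a) + a - z := by ring
    calc ‖x - z‖ = ‖(x - a) + a - z‖ := by rw [← e]
      _ ≤ ‖(x - a) + a‖ + ‖z‖ := norm_sub_le _ _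
      _ ≤ ‖x - a‖ + ‖a‖ + ‖z‖ := by linarith [norm_add_le (x - a) a]
      _ ≤ ‖a‖ + r + ‖z‖ := by linarith
  rcases (norm_nonneg (x - z)).eq_or_lt with h | h
  · rw [← h, Real.log_zero]
    refine Real.log_nonneg ?_
    have := norm_nonneg (x - a)
    linarith [norm_nonneg a, norm_nonneg z]
  · exact Real.log_le_log h (by linarith)

lemma log_up_nonneg {a z : ℂ} {r : ℝ} (hr : 0 < r) : 0 ≤ Real.log (1 + ‖a‖ + r + ‖z‖) :=
  Real.log_nonneg (by linarith [norm_nonneg a, norm_nonneg z])

lemma intOn_log (a z : ℂ) {r : ℝ} (hr : 0 < r) :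
    IntegrableOn (fun x : ℂ => Real.log ‖x - z‖) (ball a r) := by
  have hb : IntegrableOn (fun x : ℂ => Real.log (1 + ‖a‖ + r + ‖z‖) + max (-Real.log ‖x - z‖) 0)
      (ball a r) := by
    refine Integrable.add ?_ (int_neg_sub z).integrableOn
    exact integrableOn_const measure_ball_lt_top.ne
  refine Integrable.mono' hb ?_ ?_
  · refine Measurable.aestronglyMeasurable ?_
    exact Real.measurable_log.comp (measurable_id.sub_const z).norm
  · rw [ae_restrict_iff' measurableSet_ball]
    refine Eventually.of_forall fun x hx => ?_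
    have h1 := log_le_up (z := z) hx
    have h2 := log_up_nonneg (a := a) (z := z) hr
    rw [Real.norm_eq_abs, abs_le]
    have h3 := le_max_left (-Real.log ‖x - z‖) 0
    have h4 := le_max_right (-Real.log ‖x - z‖) 0
    constructor <;> linarith

lemma vol_ball (a : ℂ) {r : ℝ} (hr : 0 < r) : volume.real (ball a r) = Real.pi * r ^ 2 := by
  rw [Measure.real, Complex.volume_ball, ENNReal.toReal_mul, ENNReal.toReal_pow,
    ENNReal.toReal_ofReal hr.le]
  simp only [ENNReal.coe_toReal, NNReal.coe_real_pi]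
  ring

lemma avg_le {f : ℂ → ℝ} {a : ℂ} {r c : ℝ} (hr : 0 < r) (hf : IntegrableOn f (ball a r))
    (h : ∀ x ∈ ball a r, f x ≤ c) : avg f a r ≤ c := by
  unfold avg
  have hv := vol_ball a hr
  have h1 : ∫ x in ball a r, f x ≤ ∫ _ in ball a r, c :=
    setIntegral_mono_on hf (integrableOn_const measure_ball_lt_top.ne) measurableSet_ball h
  rw [setIntegral_const, smul_eq_mul, hv] at h1
  have hp : 0 < Real.pi * r ^ 2 := by positivity
  rw [inv_mul_le_iff₀ hp]
  exact h1

lemma le_avg {f : ℂ → ℝ} {a : ℂ} {r c : ℝ} (hr : 0 < r) (hf : IntegrableOn f (ball a r))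
    (h : ∀ x ∈ ball a r, c ≤ f x) : c ≤ avg f a r := by
  unfold avg
  have hv := vol_ball a hr
  have h1 : ∫ _ in ball a r, c ≤ ∫ x in ball a r, f x :=
    setIntegral_mono_on (integrableOn_const measure_ball_lt_top.ne) hf measurableSet_ball h
  rw [setIntegral_const, smul_eq_mul, hv] at h1
  have hp : 0 < Real.pi * r ^ 2 := by positivity
  rw [le_inv_mul_iff₀ hp]
  exact h1

lemma avg_log_lb (a z : ℂ) {r : ℝ} (hr : 0 < r) :
    -((Real.pi * r ^ 2)⁻¹ * I0) ≤ avg (fun x => Real.log ‖x - z‖) a r := by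
  unfold avg
  have hp : 0 < Real.pi * r ^ 2 := by positivity
  have h1 : ∫ x in ball a r, -max (-Real.log ‖x - z‖) 0 ≤ ∫ x in ball a r, Real.log ‖x - z‖ := by
    refine setIntegral_mono_on (int_neg_sub z).neg.integrableOn (intOn_log a z hr)
      measurableSet_ball ?_
    intro x _
    have := le_max_left (-Real.log ‖x - z‖) 0
    linarith
  rw [integral_neg] at h1
  have h2 : ∫ x in ball a r, max (-Real.log ‖x - z‖) 0 ≤ I0 := by
    rw [← integral_neg_sub z]
    exact setIntegral_le_integral (int_neg_sub z) (Eventually.of_forall fun _ => le_max_right _ _)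
  rw [← mul_neg]
  exact mul_le_mul_of_nonneg_left (by linarith) (by positivity)

lemma avg_log_ub (a z : ℂ) {r : ℝ} (hr : 0 < r) :
    avg (fun x => Real.log ‖x - z‖) a r ≤ Real.log (1 + ‖a‖ + r + ‖z‖) :=
  avg_le hr (intOn_log a z hr) fun _ hx => log_le_up hx

lemma avg_sub {f g : ℂ → ℝ} {a : ℂ} {r : ℝ} (hf : IntegrableOn f (ball a r))
    (hg : IntegrableOn g (ball a r)) : avg (fun x => f x - g x) a r = avg f a r - avg g a r := by
  unfold avg
  rw [integral_sub hf hg]
  ring

lemma scal_ae (y : ℂ) {t : ℝ} (ht : 0 < t) (s : Set ℂ) :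
    (fun x : ℂ => Real.log ‖(t : ℂ) * x - y‖) =ᵐ[volume.restrict s]
      fun x => Real.log t + Real.log ‖x - y / t‖ := by
  have h : ∀ᵐ x : ℂ ∂(volume.restrict s), x ≠ y / t := by
    refine ae_restrict_of_ae ?_
    rw [ae_iff]
    simp
  filter_upwards [h] with x hx
  have ht0 : (t : ℂ) ≠ 0 := by exact_mod_cast ht.ne'
  have e : (t : ℂ) * x - y = t * (x - y / t) := by
    field_simp
  rw [e, norm_mul, Complex.norm_real, Real.norm_of_nonneg ht.le, Real.log_mul ht.ne']
  rw [norm_ne_zero_iff, sub_ne_zero]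
  exact hx

lemma intOn_scal (a y : ℂ) {t r : ℝ} (ht : 0 < t) (hr : 0 < r) :
    IntegrableOn (fun x : ℂ => Real.log ‖(t : ℂ) * x - y‖) (ball a r) := by
  have h : IntegrableOn (fun x : ℂ => Real.log t + Real.log ‖x - y / t‖) (ball a r) := by
    refine Integrable.add ?_ (intOn_log a _ hr)
    exact integrableOn_const measure_ball_lt_top.ne
  exact h.congr (scal_ae y ht _).symm

lemma avg_scal (a y : ℂ) {t r : ℝ} (ht : 0 < t) (hr : 0 < r) :
    avg (fun x : ℂ => Real.log ‖(t : ℂ) * x - y‖) a r =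
      Real.log t + avg (fun x => Real.log ‖x - y / t‖) a r := by
  unfold avg
  have hp : Real.pi * r ^ 2 ≠ 0 := by positivity
  have hc : Integrable (fun _ : ℂ => Real.log t) (volume.restrict (ball a r)) :=
    integrableOn_const measure_ball_lt_top.ne
  have hl : Integrable (fun x : ℂ => Real.log ‖x - y / t‖) (volume.restrict (ball a r)) :=
    intOn_log a _ hr
  rw [integral_congr_ae (scal_ae y ht (ball a r)), integral_add hc hl,
    setIntegral_const, smul_eq_mul, vol_ball a hr, mul_add, ← mul_assoc, inv_mul_cancel₀ hp,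
    one_mul]

theorem k1 : S_K1 := by
  have hI := I0_nonneg
  refine ⟨Real.log 16 + (Real.pi * (1 / 16 : ℝ) ^ 2)⁻¹ * I0 + 1, ?_, ?_⟩
  · have : 0 ≤ Real.log 16 := Real.log_nonneg (by norm_num)
    positivity
  intro a t ha1 ha2 ht y
  have ht0 : 0 < t := by linarith
  have hr : (0 : ℝ) < 1 / 16 := by norm_num
  have hi1 := intOn_log a y hr
  have hi2 := intOn_scal a y ht0 hr
  have hC0 : 0 ≤ (Real.pi * (1 / 16 : ℝ) ^ 2)⁻¹ * I0 := by positivity
  have hl8 : Real.log 8 ≤ Real.log 16 := Real.log_le_log (by norm_num) (by norm_num)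
  have hnx : ∀ x ∈ ball a (1 / 16), 15 / 16 ≤ ‖x‖ ∧ ‖x‖ ≤ 33 / 16 := by
    intro x hx
    have hxa : ‖x - a‖ < 1 / 16 := by simpa [dist_eq_norm] using hx
    have h1 := norm_sub_norm_le a x
    have h2 := norm_sub_norm_le x a
    rw [norm_sub_rev] at h1
    constructor <;> linarith
  have hup : ∀ x ∈ ball a (1 / 16), Real.log ‖x - y‖ ≤ Real.log (4 + ‖y‖) := by
    intro x hx
    have h1 := (hnx x hx).2
    have h2 := norm_sub_le x y
    rcases (norm_nonneg (x - y)).eq_or_lt with h | h
    · rw [← h, Real.log_zero]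
      exact Real.log_nonneg (by linarith [norm_nonneg y])
    · exact Real.log_le_log h (by linarith)
  constructor
  · rcases le_or_gt ‖y‖ (4 * t) with hy | hy
    · have e1 : avg (fun x => Real.log ‖x - y‖) a (1 / 16) ≤ Real.log (8 * t) := by
        refine (avg_le hr hi1 hup).trans ?_
        exact Real.log_le_log (by linarith [norm_nonneg y]) (by linarith)
      have e2 := avg_log_lb a (y / t) hr
      rw [avg_sub hi1 hi2, avg_scal a y ht0 hr]
      rw [Real.log_mul (by norm_num) ht0.ne'] at e1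
      linarith
    · have hy0 : 0 < ‖y‖ := by linarith
      refine (avg_le hr (hi1.sub hi2) (c := Real.log 8) ?_).trans (by linarith)
      intro x hx
      have h1 := hup x hx
      have h2 : Real.log (4 + ‖y‖) ≤ Real.log (2 * ‖y‖) :=
        Real.log_le_log (by linarith) (by linarith)
      have h3 : ‖y‖ / 4 ≤ ‖(t : ℂ) * x - y‖ := by
        have h4 := norm_sub_norm_le y ((t : ℂ) * x)
        rw [norm_sub_rev, norm_mul, Complex.norm_real, Real.norm_of_nonneg ht0.le] at h4
        have h5 : t * ‖x‖ ≤ t * (33 / 16) := mul_le_mul_of_nonneg_left (hnx x hx).2 ht0.le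
        linarith
      have h4 : Real.log (‖y‖ / 4) ≤ Real.log ‖(t : ℂ) * x - y‖ :=
        Real.log_le_log (by positivity) h3
      have h5 : Real.log (2 * ‖y‖) - Real.log (‖y‖ / 4) = Real.log 8 := by
        rw [← Real.log_div (by positivity) (by positivity)]
        congr 1
        field_simp
        norm_num
      show Real.log ‖x - y‖ - Real.log ‖(t : ℂ) * x - y‖ ≤ Real.log 8
      linarith
  · intro hy
    refine (avg_le hr (hi1.sub hi2) (c := Real.log 16 - Real.log t) ?_).trans (by linarith)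
    intro x hx
    have h1 : Real.log ‖x - y‖ ≤ Real.log 4 := by
      have h1 := (hnx x hx).2
      have h2 := norm_sub_le x y
      rcases (norm_nonneg (x - y)).eq_or_lt with h | h
      · rw [← h, Real.log_zero]
        exact Real.log_nonneg (by norm_num)
      · exact Real.log_le_log h (by linarith)
    have h3 : t / 4 ≤ ‖(t : ℂ) * x - y‖ := by
      have h4 := norm_sub_norm_le ((t : ℂ) * x) y
      rw [norm_mul, Complex.norm_real, Real.norm_of_nonneg ht0.le] at h4
      have h5 : t * (15 / 16) ≤ t * ‖x‖ := mul_le_mul_of_nonneg_left (hnx x hx).1 ht0.le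
      linarith
    have h4 : Real.log (t / 4) ≤ Real.log ‖(t : ℂ) * x - y‖ :=
      Real.log_le_log (by positivity) h3
    have h5 : Real.log 4 - Real.log (t / 4) = Real.log 16 - Real.log t := by
      rw [Real.log_div ht0.ne' (by norm_num)]
      have : Real.log 16 = Real.log 4 + Real.log 4 := by
        rw [← Real.log_mul (by norm_num) (by norm_num)]
        norm_num
      linarith
    show Real.log ‖x - y‖ - Real.log ‖(t : ℂ) * x - y‖ ≤ Real.log 16 - Real.log t
    linarith

/-- far away both averages are close to `log ‖y‖` -/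
lemma far {a y : ℂ} {r : ℝ} (hr : 0 < r) (hy : 2 * (‖a‖ + r) ≤ ‖y‖) :
    |avg (fun x => Real.log ‖x - y‖) a r - Real.log ‖y‖| ≤ Real.log 2 := by
  have hy0 : 0 < ‖y‖ := by linarith [norm_nonneg a]
  have hpt : ∀ x ∈ ball a r, Real.log ‖y‖ - Real.log 2 ≤ Real.log ‖x - y‖ ∧
      Real.log ‖x - y‖ ≤ Real.log ‖y‖ + Real.log 2 := by
    intro x hx
    have hxa : ‖x - a‖ < r := by simpa [dist_eq_norm] using hx
    have h2 := norm_sub_norm_le x a
    have hx2 : ‖x‖ ≤ ‖y‖ / 2 := by linarith
    have h3 : ‖y‖ / 2 ≤ ‖x - y‖ := by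
      have := norm_sub_norm_le y x
      rw [norm_sub_rev] at this
      linarith
    have h4 : ‖x - y‖ ≤ ‖y‖ * 2 := by
      have := norm_sub_le x y
      linarith
    rw [← Real.log_div hy0.ne' (by norm_num), ← Real.log_mul hy0.ne' (by norm_num)]
    exact ⟨Real.log_le_log (by positivity) h3, Real.log_le_log (by linarith) h4⟩
  have h1 := le_avg hr (intOn_log a y hr) fun x hx => (hpt x hx).1
  have h2 := avg_le hr (intOn_log a y hr) fun x hx => (hpt x hx).2
  rw [abs_le]
  constructor <;> linarith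

theorem avl : S_AVL := by
  intro a b r s hr hs
  set K : ℝ := 2 * (‖a‖ + ‖b‖ + r + s) with hK
  have hK0 : 0 < K := by
    have := norm_nonneg a
    have := norm_nonneg b
    positivity
  have hI := I0_nonneg
  refine ⟨((Real.pi * r ^ 2)⁻¹ * I0 + (Real.pi * s ^ 2)⁻¹ * I0) +
    (Real.log (1 + ‖a‖ + r + K) + Real.log (1 + ‖b‖ + s + K)) + 2 * Real.log 2, ?_⟩
  intro y
  have h1 : 0 ≤ (Real.pi * r ^ 2)⁻¹ * I0 := by positivity
  have h2 : 0 ≤ (Real.pi * s ^ 2)⁻¹ * I0 := by positivity
  have h3 : 0 ≤ Real.log (1 + ‖a‖ + r + K) :=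
    Real.log_nonneg (by linarith [norm_nonneg a])
  have h4 : 0 ≤ Real.log (1 + ‖b‖ + s + K) :=
    Real.log_nonneg (by linarith [norm_nonneg b])
  have h5 : 0 ≤ Real.log 2 := Real.log_nonneg (by norm_num)
  rcases le_or_gt ‖y‖ K with hy | hy
  · have e1 := avg_log_lb a y hr
    have e2 := avg_log_lb b y hs
    have e3 := avg_log_ub a y hr
    have e4 := avg_log_ub b y hs
    have e5 : Real.log (1 + ‖a‖ + r + ‖y‖) ≤ Real.log (1 + ‖a‖ + r + K) :=
      Real.log_le_log (by linarith [norm_nonneg a, norm_nonneg y]) (by linarith)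
    have e6 : Real.log (1 + ‖b‖ + s + ‖y‖) ≤ Real.log (1 + ‖b‖ + s + K) :=
      Real.log_le_log (by linarith [norm_nonneg b, norm_nonneg y]) (by linarith)
    rw [abs_le]
    constructor <;> linarith
  · have e1 := far (a := a) (y := y) hr (by linarith [norm_nonneg b])
    have e2 := far (a := b) (y := y) hs (by linarith [norm_nonneg a])
    rw [abs_le] at e1 e2 ⊢
    constructor <;> linarith [e1.1, e1.2, e2.1, e2.2]

end Pool.Agent.W395.PS
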