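import Pool.Agent.W606.PS.Stm

/-!
# PS-TWO: two classes, a triangle between the region and the two classes
-/

set_option autoImplicit false

open Set Relation

namespace Pool.Agent.W395.PSTwo

open Pool.Agent.W606.PS

lemma const_of_con {V : Type} {G : SimpleGraph V} {S : Set V} {b : V → Bool} (hS : Con G S)
    (h : ∀ u v, G.Adj u v → u ∈ S → v ∈ S → b u = b v) : ∀ u ∈ S, ∀ v ∈ S, b u = b v := by
  intro u hu v hv
  have key : ∀ w, ReflTransGen (fun a b => G.Adj a b ∧ a ∈ S ∧ b ∈ S) u w → b u = b w := by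
    intro w p
    induction p with
    | refl => rfl
    | tail _ q ih => exact ih.trans (h _ _ q.1 q.2.1 q.2.2)
  exact key v (hS.2 u hu v hv)

theorem main : S_TWO := by
  intro V T G tv hS Om Z0 Z1 hOm hZ0 hZ1 hd hcov h01 hO0 hO1
  by_contra hno
  have dO0 : ∀ x, x ∈ Om → x ∈ Z0 → False := by
    intro x hx h0
    have : x ∈ Omᶜ := by rw [← hcov]; exact Or.inl h0
    exact this hx
  have dO1 : ∀ x, x ∈ Om → x ∈ Z1 → False := by
    intro x hx h1
    have : x ∈ Omᶜ := by rw [← hcov]; exact Or.inr h1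
    exact this hx
  have d01 : ∀ x, x ∈ Z0 → x ∈ Z1 → False := fun x h0 h1 => Set.disjoint_left.1 hd h0 h1
  obtain ⟨b, hb⟩ := hS.coh Om Z0 (Set.disjoint_left.2 fun x hx h0 => dO0 x hx h0) (by
    intro t i j hi hj k
    by_contra hk
    have hk1 : tv t k ∈ Z1 := by
      have h1 : tv t k ∈ Omᶜ := fun h => hk (Or.inl h)
      rw [← hcov] at h1
      rcases h1 with h | h
      · exact absurd (Or.inr h) hk
      · exact h
    have hij : i ≠ j := by
      rintro rfl
      exact dO0 _ hi hj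
    have hik : i ≠ k := by
      rintro rfl
      exact dO1 _ hi hk1
    have hjk : j ≠ k := by
      rintro rfl
      exact d01 _ hj hk1
    have hinj : Function.Injective (![j, k, i] : Fin 3 → Fin 3) := by
      intro a c hac
      fin_cases a <;> fin_cases c <;> simp_all
    refine hno ⟨t, Equiv.ofBijective _ (Finite.injective_iff_bijective.1 hinj), ?_⟩
    intro m
    fin_cases m
    · exact hj
    · exact hk1
    · exact hi)
  have hOmc : ∀ u ∈ Om, ∀ v ∈ Om, b u = b v := const_of_con hOm (by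
    intro u v e hu hv
    by_contra hne
    rcases (hb u v e).1 hne with h | h
    · exact dO0 _ hv h.2
    · exact dO0 _ hu h.1)
  have hZ0c : ∀ u ∈ Z0, ∀ v ∈ Z0, b u = b v := const_of_con hZ0 (by
    intro u v e hu hv
    by_contra hne
    rcases (hb u v e).1 hne with h | h
    · exact dO0 _ h.1 hu
    · exact dO0 _ h.2 hv)
  have hZ1c : ∀ u ∈ Z1, ∀ v ∈ Z1, b u = b v := const_of_con hZ1 (by
    intro u v e hu hv
    by_contra hne
    rcases (hb u v e).1 hne with h | h
    · exact dO1 _ h.1 hu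
    · exact dO1 _ h.2 hv)
  obtain ⟨u0, hu0, v0, hv0, e0⟩ := hO0
  obtain ⟨u1, hu1, v1, hv1, e1⟩ := hO1
  obtain ⟨u2, hu2, v2, hv2, e2⟩ := h01
  have f0 : b u0 ≠ b v0 := (hb u0 v0 e0).2 (Or.inl ⟨hu0, hv0⟩)
  have f1 : b u1 = b v1 := by
    by_contra hne
    rcases (hb u1 v1 e1).1 hne with h | h
    · exact d01 _ h.2 hv1
    · exact dO0 _ hu1 h.1
  have f2 : b u2 = b v2 := by
    by_contra hne
    rcases (hb u2 v2 e2).1 hne with h | h
    · exact dO0 _ h.1 hu2
    · exact dO1 _ h.2 hv2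
  refine f0 ?_
  rw [hOmc u0 hu0 u1 hu1, f1, hZ1c v1 hv1 v2 hv2, ← f2, hZ0c u2 hu2 v0 hv0]

end Pool.Agent.W395.PSTwo
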